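import Mathlib
import Pool.Agent.Y848.NB.Gen

set_option autoImplicit false

open Filter Topology

namespace Pool.Agent.Results.MP_32f877_an.AllTetrahedraNBody

/-- Positions in space. -/
abbrev Space := EuclideanSpace ℝ (Fin 3)

/-- The volume of the tetrahedron with vertices `x 0, x 1, x 2, x 3`: one sixth of the absolute
value of the determinant of the three edge vectors at `x 0`. -/
noncomputable def tetraVolume (x : Fin 4 → Space) : ℝ :=
  (1 / 6) * |Matrix.det (Matrix.of fun i j : Fin 3 => x i.succ j - x 0 j)|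

/-- `q` is a solution of the Newtonian `N`-body problem in space with masses `m` and velocities
`v`, defined and collision-free for all `t ≥ 0`. -/
def IsSolution {N : ℕ} (m : Fin N → ℝ) (q v : Fin N → ℝ → Space) : Prop :=
  ∀ t : ℝ, 0 ≤ t →
    (∀ i j : Fin N, i ≠ j → q i t ≠ q j t) ∧
    ∀ i : Fin N, HasDerivAt (q i) (v i t) t ∧
      HasDerivAt (v i)
        (∑ j ∈ Finset.univ.erase i, (m j / ‖q j t - q i t‖ ^ 3) • (q j t - q i t)) t

theorem tetraVolume_eq (x : Fin 4 → Space) :
    tetraVolume x = (1 / 6) * |Y848.NB.D (fun i => x i 0) (fun i => x i 1) (fun i => x i 2)| := by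
  unfold tetraVolume Y848.NB.D
  rw [Matrix.det_fin_three]
  simp only [Matrix.of_apply]
  congr 2
  have h0 : (0 : Fin 3).succ = (1 : Fin 4) := rfl
  have h1 : (1 : Fin 3).succ = (2 : Fin 4) := rfl
  have h2 : (2 : Fin 3).succ = (3 : Fin 4) := rfl
  rw [h0, h1, h2]
  ring

theorem D_smul (l : ℝ) (X Y Z : Fin 4 → ℝ) :
    Y848.NB.D (fun i => l * X i) Y Z = l * Y848.NB.D X Y Z := by
  unfold Y848.NB.D
  ring

/-- For every number `N` of bodies, all positive masses, every distinguished choice `s₀` of four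
bodies, all `V > 0` and `ε > 0` there is a solution of the spatial `N`-body problem, defined and
collision-free for all `t ≥ 0`, such that the volumes of ALL tetrahedra spanned by four of the
bodies stay between two positive constants and converge, each of them staying within `ε` of its
limit; the limit for the four distinguished bodies is `V`. The bodies have distinct asymptotic
velocities, so that all mutual distances grow linearly. -/
theorem result (N : ℕ) (m : Fin N → ℝ) (hm : ∀ i, 0 < m i) (s₀ : Fin 4 ↪ Fin N)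
    (V ε : ℝ) (hV : 0 < V) (hε : 0 < ε) :
    ∃ (q v : Fin N → ℝ → Space) (L : (Fin 4 ↪ Fin N) → ℝ) (c C : ℝ) (w : Fin N → Space),
      IsSolution m q v ∧ 0 < c ∧ c ≤ C ∧
      (∀ (s : Fin 4 ↪ Fin N) (t : ℝ), 0 ≤ t →
        c ≤ tetraVolume (fun i => q (s i) t) ∧ tetraVolume (fun i => q (s i) t) ≤ C ∧
        |tetraVolume (fun i => q (s i) t) - L s| ≤ ε) ∧
      (∀ s : Fin 4 ↪ Fin N,
        Tendsto (fun t => tetraVolume (fun i => q (s i) t)) atTop (𝓝 (L s))) ∧
      L s₀ = V ∧
      Function.Injective w ∧ ∀ i, Tendsto (fun t : ℝ => t⁻¹ • q i t) atTop (𝓝 (w i)) := by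
  classical
  have hN : 4 ≤ N := by
    have := Fintype.card_le_of_injective _ s₀.injective
    simpa using this
  -- masses indexed by natural numbers
  set m' : ℕ → ℝ := fun j => if h : j < N then m ⟨j, h⟩ else 1 with hm'
  have hm'pos : ∀ i, 0 < m' i := by
    intro i
    simp only [hm']
    split_ifs with h
    · exact hm _
    · exact one_pos
  have hm'eq : ∀ j : Fin N, m' (j : ℕ) = m j := by
    intro j
    simp only [hm', j.2, dif_pos]
  obtain ⟨a, ha, -, -, hT⟩ := Y848.NB.gen m' hm'pos N (by omega)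
  set f : ℕ → ℝ := Y848.NB.ff m' a N with hf
  obtain ⟨M, hM⟩ := Y848.NB.gen_kappa f a N hT
  set a' : Fin N → ℝ := fun i => a i with ha'
  have ha'inj : Function.Injective a' := by
    intro i j hij
    by_contra hne
    have h1 : (i : ℕ) ≠ (j : ℕ) := fun h => hne (Fin.ext h)
    rcases lt_or_gt_of_ne h1 with h2 | h2
    · exact ha i j h2 j.2 hij
    · exact ha j i h2 i.2 hij.symm
  have hfv : ∀ i : Fin N, Y848.NB.fv m a' i = f i := by
    intro i
    rw [Y848.NB.fv_eq, hf, Y848.NB.ff, ← Fin.sum_univ_eq_sum_range]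
    refine Finset.sum_congr rfl fun j _ => ?_
    rw [Y848.NB.aa_sub, Y848.NB.norm_vec, hm'eq]
    simp only [ha']
    ring
  -- normalisation of the limit volume
  set D0 : ℝ := Y848.NB.D (fun i => M ^ (s₀ i : ℕ)) (fun i => a (s₀ i)) (fun i => f (s₀ i))
    with hD0
  have hD0ne : D0 ≠ 0 := hM s₀
  set l : ℝ := 6 * V / |D0| with hl
  have habs : 0 < |D0| := abs_pos.mpr hD0ne
  have hlpos : 0 < l := by positivity
  obtain ⟨T, q, v, hsol, hlim, hvel⟩ := Y848.NB.main_asym m a' ha'inj (fun i => f i)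
    (fun i => l * M ^ (i : ℕ)) 0 0 1 (fun i => by rw [hfv]; ring)
  set L : (Fin 4 ↪ Fin N) → ℝ := fun s => (1 / 6) * |l * Y848.NB.D (fun i => M ^ (s i : ℕ))
    (fun i => a (s i)) (fun i => f (s i))| with hL
  have hLpos : ∀ s, 0 < L s := by
    intro s
    have h1 : 0 < |l * Y848.NB.D (fun i => M ^ (s i : ℕ))
      (fun i => a (s i)) (fun i => f (s i))| := abs_pos.mpr (mul_ne_zero hlpos.ne' (hM s))
    positivity
  have hL0 : L s₀ = V := by
    simp only [hL]
    rw [← hD0, abs_mul, abs_of_pos hlpos, hl]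
    field_simp
  have hvol : ∀ s : Fin 4 ↪ Fin N, Tendsto (fun t => tetraVolume (fun i => q t (s i))) atTop
      (𝓝 (L s)) := by
    intro s
    have h1 := ((hlim s).abs).const_mul (1 / 6 : ℝ)
    rw [D_smul] at h1
    refine h1.congr fun t => ?_
    rw [tetraVolume_eq]
  -- a lower bound for all limits
  obtain ⟨η, hη, hηε, hηL⟩ : ∃ η : ℝ, 0 < η ∧ η ≤ ε ∧ ∀ s, 2 * η ≤ L s := by
    have hne : (Finset.univ : Finset (Fin 4 ↪ Fin N)).Nonempty := ⟨s₀, Finset.mem_univ _⟩
    refine ⟨min ε ((Finset.univ.inf' hne L) / 2), ?_, min_le_left _ _, ?_⟩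
    · refine lt_min hε ?_
      have : 0 < Finset.univ.inf' hne L := by
        rw [Finset.lt_inf'_iff]
        exact fun s _ => hLpos s
      linarith
    · intro s
      have h1 : Finset.univ.inf' hne L ≤ L s := Finset.inf'_le _ (Finset.mem_univ s)
      have h2 := min_le_right ε ((Finset.univ.inf' hne L) / 2)
      linarith
  obtain ⟨B, hB⟩ : ∃ B : ℝ, ∀ s, L s ≤ B := by
    obtain ⟨B, hB⟩ := (Set.finite_range L).bddAbove
    exact ⟨B, fun s => hB ⟨s, rfl⟩⟩
  have hev : ∀ᶠ t in atTop, ∀ s : Fin 4 ↪ Fin N,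
      |tetraVolume (fun i => q t (s i)) - L s| < η := by
    rw [Filter.eventually_all]
    intro s
    have h1 := (Metric.tendsto_atTop.mp (hvol s)) η hη
    obtain ⟨t0, ht0⟩ := h1
    filter_upwards [eventually_ge_atTop t0] with t ht
    have h2 := ht0 t ht
    rwa [Real.dist_eq] at h2
  obtain ⟨T1, hT1⟩ := Filter.eventually_atTop.mp hev
  set S : ℝ := max T T1 + 1 with hS
  have hST : T < S := by
    have : T ≤ max T T1 := le_max_left _ _
    linarith
  have hST1 : T1 ≤ S := by
    have : T1 ≤ max T T1 := le_max_right _ _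
    linarith
  refine ⟨fun i t => q (t + S) i, fun i t => v (t + S) i, L, η, B + η,
    Y848.NB.aa a', ?_, hη, ?_, ?_, ?_, hL0, ?_, ?_⟩
  · intro t ht
    have hTt : T < t + S := by linarith
    obtain ⟨h1, h2, h3⟩ := hsol (t + S) hTt
    refine ⟨h1, fun i => ?_⟩
    have h4 : HasDerivAt (fun t => q (t + S)) (v (t + S)) t := h2.comp_add_const t S
    have h5 : HasDerivAt (fun t => v (t + S)) (Y848.NB.acc m (q (t + S))) t :=
      h3.comp_add_const t S
    refine ⟨(hasDerivAt_pi.mp h4) i, ?_⟩
    refine ((hasDerivAt_pi.mp h5) i).congr_deriv ?_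
    unfold Y848.NB.acc
    rw [← Finset.add_sum_erase Finset.univ _ (Finset.mem_univ i)]
    simp
  · have := hηL s₀
    have := hB s₀
    linarith
  · intro s t ht
    have h1 := hT1 (t + S) (by linarith) s
    have h2 := abs_lt.mp h1
    have h3 := hηL s
    have h4 := hB s
    refine ⟨by linarith [h2.1], by linarith [h2.2], h1.le.trans hηε⟩
  · intro s
    exact (hvol s).comp (tendsto_atTop_add_const_right _ S tendsto_id)
  · intro i j hij
    have h1 : Y848.NB.aa a' i 0 = Y848.NB.aa a' j 0 := by rw [hij]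
    exact ha'inj h1
  · intro i
    have h1 : Tendsto (fun t : ℝ => (t + S)⁻¹ • q (t + S) i) atTop (𝓝 (Y848.NB.aa a' i)) :=
      ((tendsto_pi_nhds.mp hvel) i).comp (tendsto_atTop_add_const_right _ S tendsto_id)
    have h2 : Tendsto (fun t : ℝ => 1 + S * t⁻¹) atTop (𝓝 (1 + S * 0)) :=
      (tendsto_inv_atTop_zero.const_mul S).const_add 1
    rw [mul_zero, add_zero] at h2
    have h3 := h2.smul h1
    rw [one_smul] at h3
    refine h3.congr' ?_
    filter_upwards [eventually_gt_atTop 0, eventually_gt_atTop (-S)] with t ht ht2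
    have h4 : t + S ≠ 0 := by linarith
    rw [smul_smul]
    congr 1
    field_simp

end Pool.Agent.Results.MP_32f877_an.AllTetrahedraNBody
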